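import Pool.Agent.W2helper20.KS.Stm
import Pool.Agent.W2helper53.BC.Trace

/-!
Project KS, piece NORM: the integral of `|b(v, v)|` over the ellipsoids bounds the coefficients.
-/

set_option autoImplicit false

namespace Pool.Agent.W2helper60.KS

open Set Metric MeasureTheory Filter Topology
open scoped ContDiff InnerProductSpace ENNReal
open Pool.Agent.Q176.BR Pool.Agent.W2helper20.BC Pool.Agent.W2helper25.KB
open Pool.Agent.W2helper20.KS

variable {n : ℕ}

/-- the quadratic form of a matrix -/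
def qf (B : Fin n → Fin n → ℝ) (v : E n) : ℝ := ∑ i, ∑ j, v i * v j * B i j

theorem qf_gram (b : E n →L[ℝ] E n →L[ℝ] ℝ) (v : E n) :
    qf (fun i j => b (bs i) (bs j)) v = b v v := by
  rw [form_eq_gram b v v]
  rfl

theorem qf_smul_vec (B : Fin n → Fin n → ℝ) (t : ℝ) (v : E n) :
    qf B (t • v) = t ^ 2 * qf B v := by
  simp only [qf, Finset.mul_sum, PiLp.smul_apply, smul_eq_mul]
  refine Finset.sum_congr rfl fun i _ => Finset.sum_congr rfl fun j _ => ?_
  ring

theorem qf_smul (B : Fin n → Fin n → ℝ) (t : ℝ) (v : E n) : qf (t • B) v = t * qf B v := by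
  simp only [qf, Finset.mul_sum, Pi.smul_apply, smul_eq_mul]
  refine Finset.sum_congr rfl fun i _ => Finset.sum_congr rfl fun j _ => ?_
  ring

theorem cont_qf2 : Continuous (fun p : (Fin n → Fin n → ℝ) × E n => |qf p.1 p.2|) := by
  unfold qf
  fun_prop

theorem cont_qf (B : Fin n → Fin n → ℝ) : Continuous (fun v : E n => qf B v) := by
  unfold qf
  fun_prop

/-- the integral over a small ball -/
noncomputable def F (s : ℝ) (B : Fin n → Fin n → ℝ) : ℝ :=
  ∫ v in closedBall (0 : E n) s, |qf B v|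

theorem cont_F (s : ℝ) : Continuous (F (n := n) s) :=
  continuous_parametric_integral_of_continuous (μ := volume)
    (f := fun (B : Fin n → Fin n → ℝ) (v : E n) => |qf B v|) cont_qf2
    (isCompact_closedBall (0 : E n) s)

theorem F_smul (s t : ℝ) (B : Fin n → Fin n → ℝ) : F s (t • B) = |t| * F s B := by
  unfold F
  rw [← integral_const_mul]
  refine integral_congr_ae (Eventually.of_forall fun v => ?_)
  show |qf (t • B) v| = |t| * |qf B v|
  rw [qf_smul, abs_mul]

theorem qf_ne {B : Fin n → Fin n → ℝ} (hsym : ∀ i j, B i j = B j i) (hB : B ≠ 0) :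
    ∃ v : E n, qf B v ≠ 0 := by
  by_contra hcon
  push Not at hcon
  apply hB
  have hbs : ∀ i k : Fin n, (bs i : E n) k = if k = i then 1 else 0 := by
    intro i k
    simp [bs]
  have hii : ∀ i, B i i = 0 := by
    intro i
    have h := hcon (bs i)
    simpa [qf, hbs] using h
  funext i j
  by_cases hij : i = j
  · rw [← hij]
    exact hii i
  · have h := hcon (bs i + bs j)
    have h2 : qf B (bs i + bs j : E n) = B i i + B i j + B j i + B j j := by
      simp only [qf, PiLp.add_apply, hbs, add_mul, mul_add, ite_mul, one_mul, zero_mul, mul_ite,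
        mul_one, mul_zero, Finset.sum_add_distrib]
      simp [Finset.sum_add_distrib]
      ring
    rw [h2, hii, hii, hsym j i] at h
    simp only [Pi.zero_apply]
    linarith

theorem F_pos {s : ℝ} (hs : 0 < s) (B : Fin n → Fin n → ℝ) (hsym : ∀ i j, B i j = B j i)
    (hB : B ≠ 0) : 0 < F s B := by
  obtain ⟨v₀, hv₀⟩ := qf_ne hsym hB
  have hint : IntegrableOn (fun v : E n => |qf B v|) (closedBall (0 : E n) s) :=
    ((cont_qf B).abs.continuousOn).integrableOn_compact (isCompact_closedBall _ _)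
  unfold F
  rw [setIntegral_pos_iff_support_of_nonneg_ae (Eventually.of_forall fun v => abs_nonneg _) hint]
  have hopen : IsOpen ({v : E n | qf B v ≠ 0} ∩ ball 0 s) :=
    ((isOpen_compl_singleton).preimage (cont_qf B)).inter isOpen_ball
  have hne : ({v : E n | qf B v ≠ 0} ∩ ball 0 s).Nonempty := by
    have hv : v₀ ≠ 0 := by
      rintro rfl
      exact hv₀ (by simp [qf])
    have hn0 : 0 < ‖v₀‖ := norm_pos_iff.2 hv
    refine ⟨(s / (2 * ‖v₀‖)) • v₀, ?_, ?_⟩
    · have ht : s / (2 * ‖v₀‖) ≠ 0 := by positivity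
      show qf B ((s / (2 * ‖v₀‖)) • v₀) ≠ 0
      rw [qf_smul_vec]
      exact mul_ne_zero (pow_ne_zero 2 ht) hv₀
    · rw [mem_ball_zero_iff, norm_smul, Real.norm_of_nonneg (by positivity)]
      have : s / (2 * ‖v₀‖) * ‖v₀‖ = s / 2 := by
        field_simp
      rw [this]
      linarith
  refine (hopen.measure_pos volume hne).trans_le (measure_mono ?_)
  rintro v ⟨h1, h2⟩
  exact ⟨by simpa using h1, ball_subset_closedBall h2⟩

theorem F_ge {s : ℝ} (hs : 0 < s) : ∃ c : ℝ, 0 < c ∧ ∀ B : Fin n → Fin n → ℝ,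
    (∀ i j, B i j = B j i) → c * ‖B‖ ≤ F s B := by
  obtain ⟨K, hK⟩ : ∃ K : Set (Fin n → Fin n → ℝ),
      K = {B | ∀ i j, B i j = B j i} ∩ sphere 0 1 := ⟨_, rfl⟩
  have hcl : IsClosed {B : Fin n → Fin n → ℝ | ∀ i j, B i j = B j i} := by
    have : {B : Fin n → Fin n → ℝ | ∀ i j, B i j = B j i} =
        ⋂ i, ⋂ j, {B : Fin n → Fin n → ℝ | B i j = B j i} := by
      ext B
      simp
    rw [this]
    refine isClosed_iInter fun i => isClosed_iInter fun j => isClosed_eq ?_ ?_
    · fun_prop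
    · fun_prop
  have hKc : IsCompact K := by
    rw [hK]
    exact (isCompact_sphere _ _).inter_left hcl
  have key : ∀ B : Fin n → Fin n → ℝ, (∀ i j, B i j = B j i) → B ≠ 0 →
      ‖B‖⁻¹ • B ∈ K ∧ F s B = ‖B‖ * F s (‖B‖⁻¹ • B) := by
    intro B hB hB0
    have hn0 : ‖B‖ ≠ 0 := norm_ne_zero_iff.2 hB0
    refine ⟨?_, ?_⟩
    · rw [hK]
      refine ⟨fun i j => ?_, ?_⟩
      · simp only [Pi.smul_apply, smul_eq_mul, hB i j]
      · rw [mem_sphere_zero_iff_norm, norm_smul, norm_inv, norm_norm, inv_mul_cancel₀ hn0]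
    · rw [F_smul, abs_inv, abs_norm, ← mul_assoc, mul_inv_cancel₀ hn0, one_mul]
  have hF0 : F s (0 : Fin n → Fin n → ℝ) = 0 := by
    have := F_smul s 0 (0 : Fin n → Fin n → ℝ)
    rwa [zero_smul, abs_zero, zero_mul] at this
  rcases K.eq_empty_or_nonempty with hKe | hKn
  · refine ⟨1, one_pos, fun B hB => ?_⟩
    by_cases hB0 : B = 0
    · rw [hB0, hF0, norm_zero, mul_zero]
    · have := (key B hB hB0).1
      rw [hKe] at this
      exact this.elim
  · obtain ⟨B₁, hB₁, hmin⟩ := hKc.exists_isMinOn hKn (cont_F s).continuousOn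
    have hB₁' := hB₁
    rw [hK] at hB₁'
    have hB₁0 : B₁ ≠ 0 := by
      rintro rfl
      have := hB₁'.2
      rw [mem_sphere_zero_iff_norm, norm_zero] at this
      exact zero_ne_one this
    refine ⟨F s B₁, F_pos hs B₁ hB₁'.1 hB₁0, fun B hB => ?_⟩
    by_cases hB0 : B = 0
    · rw [hB0, hF0, norm_zero, mul_zero]
    · obtain ⟨h1, h2⟩ := key B hB hB0
      rw [h2, mul_comm]
      exact mul_le_mul_of_nonneg_left (hmin h1) (norm_nonneg _)

theorem sum_le (B : Fin n → Fin n → ℝ) :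
    ∑ i : Fin n, ∑ j : Fin n, |B i j| ≤ ((n : ℝ) ^ 2 + 1) * ‖B‖ := by
  have h2 : ∀ i j : Fin n, |B i j| ≤ ‖B‖ := fun i j =>
    (norm_le_pi_norm (B i) j).trans (norm_le_pi_norm B i)
  calc ∑ i : Fin n, ∑ j : Fin n, |B i j| ≤ ∑ _i : Fin n, ∑ _j : Fin n, ‖B‖ :=
        Finset.sum_le_sum fun i _ => Finset.sum_le_sum fun j _ => h2 i j
    _ = (n : ℝ) ^ 2 * ‖B‖ := by
        simp only [Finset.sum_const, Finset.card_univ, Fintype.card_fin, nsmul_eq_mul]
        ring
    _ ≤ ((n : ℝ) ^ 2 + 1) * ‖B‖ := by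
        nlinarith [norm_nonneg B]

theorem p_NORM : P_NORM := by
  intro n g hg
  rcases Nat.eq_zero_or_pos n with hn | hn
  · subst hn
    refine ⟨1, one_pos, fun x _ b _ => ?_⟩
    rw [Finset.univ_eq_empty, Finset.sum_empty, mul_zero]
    exact mul_nonneg (hg.det_pos x).le (integral_nonneg fun v => abs_nonneg _)
  · obtain ⟨C, -, hC⟩ := Pool.Agent.W2helper53.BC.p_TRACE n hn
    have hMc : IsCompact (M n) := isCompact_closedBall _ _
    have hcont : Continuous (rho g) := by
      have h : Continuous fun x => gram (g x) := by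
        refine continuous_matrix fun i j => ?_
        exact (hg.smooth.continuous.clm_apply continuous_const).clm_apply continuous_const
      exact h.matrix_det
    obtain ⟨x₀, -, hx₀⟩ := hMc.exists_isMinOn ⟨0, by simp⟩ hcont.continuousOn
    have hr : 0 < rho g x₀ := hg.det_pos x₀
    have hcs : Continuous fun x => ∑ i : Fin n, ∑ j : Fin n, |g x (bs i) (bs j)| := by
      refine continuous_finsetSum _ fun i _ => continuous_finsetSum _ fun j _ => ?_
      exact ((hg.smooth.continuous.clm_apply continuous_const).clm_apply continuous_const).abs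
    obtain ⟨x₁, -, hx₁⟩ := hMc.exists_isMaxOn ⟨0, by simp⟩ hcs.continuousOn
    obtain ⟨G, hGdef⟩ : ∃ G : ℝ, G = ∑ i : Fin n, ∑ j : Fin n, |g x₁ (bs i) (bs j)| := ⟨_, rfl⟩
    have hG0 : 0 ≤ G := by
      rw [hGdef]
      exact Finset.sum_nonneg fun i _ => Finset.sum_nonneg fun j _ => abs_nonneg _
    have hG : ∀ x ∈ M n, ∀ v : E n, g x v v ≤ G * ‖v‖ ^ 2 := by
      intro x hx v
      have hle : ∑ i : Fin n, ∑ j : Fin n, |g x (bs i) (bs j)| ≤ G := by
        rw [hGdef]
        exact hx₁ hx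
      refine le_trans ?_ (mul_le_mul_of_nonneg_right hle (sq_nonneg ‖v‖))
      rw [form_eq_gram (g x) v v, Finset.sum_mul]
      refine Finset.sum_le_sum fun i _ => ?_
      rw [Finset.sum_mul]
      refine Finset.sum_le_sum fun j _ => ?_
      have e1 : |v i| ≤ ‖v‖ := by
        simpa using PiLp.norm_apply_le v i
      have e2 : |v j| ≤ ‖v‖ := by
        simpa using PiLp.norm_apply_le v j
      have e3 : |v i| * |v j| ≤ ‖v‖ ^ 2 := by
        rw [pow_two]
        exact mul_le_mul e1 e2 (abs_nonneg _) (norm_nonneg _)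
      refine (le_abs_self _).trans ?_
      show |v i * v j * g x (bs i) (bs j)| ≤ |g x (bs i) (bs j)| * ‖v‖ ^ 2
      rw [abs_mul, abs_mul, mul_comm]
      exact mul_le_mul_of_nonneg_left e3 (abs_nonneg _)
    obtain ⟨s, hs⟩ : ∃ s : ℝ, s = 1 / √(G + 1) := ⟨_, rfl⟩
    have hs0 : 0 < s := by rw [hs]; positivity
    have hs2 : s ^ 2 = 1 / (G + 1) := by
      rw [hs, div_pow, one_pow, Real.sq_sqrt (by linarith)]
    obtain ⟨c, hc, hF⟩ := F_ge (n := n) hs0
    refine ⟨rho g x₀ * c / ((n : ℝ) ^ 2 + 1), by positivity, fun x hx b hb => ?_⟩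
    have hsub : closedBall (0 : E n) s ⊆ {v : E n | g x v v ≤ 1} := by
      intro v hv
      rw [mem_closedBall_zero_iff] at hv
      have h1 : g x v v ≤ G * ‖v‖ ^ 2 := hG x hx v
      have h2 : ‖v‖ ^ 2 ≤ s ^ 2 := pow_le_pow_left₀ (norm_nonneg _) hv 2
      have h3 : G * ‖v‖ ^ 2 ≤ G * s ^ 2 := mul_le_mul_of_nonneg_left h2 hG0
      have h4 : G * s ^ 2 ≤ 1 := by
        rw [hs2, mul_one_div, div_le_one (by linarith)]
        linarith
      exact h1.trans (h3.trans h4)
    have hint : IntegrableOn (fun v => |b v v|) {v : E n | g x v v ≤ 1} :=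
      ((hC (g x) b (hg.symm x) (hg.pos x) hb).2.1).abs
    have hF' : F s (fun i j => b (bs i) (bs j)) = ∫ v in closedBall (0 : E n) s, |b v v| := by
      unfold F
      simp only [qf_gram]
    have hle : F s (fun i j => b (bs i) (bs j)) ≤ ∫ v in {v : E n | g x v v ≤ 1}, |b v v| := by
      rw [hF']
      exact setIntegral_mono_set hint (Eventually.of_forall fun v => abs_nonneg _)
        (Eventually.of_forall hsub)
    have hx₀' : rho g x₀ ≤ rho g x := hx₀ hx
    have hsum := sum_le (fun i j => b (bs i) (bs j) : Fin n → Fin n → ℝ)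
    have hFb := hF (fun i j => b (bs i) (bs j)) (fun i j => hb _ _)
    calc rho g x₀ * c / ((n : ℝ) ^ 2 + 1) * ∑ i, ∑ j, |b (bs i) (bs j)|
        ≤ rho g x₀ * c / ((n : ℝ) ^ 2 + 1) *
            (((n : ℝ) ^ 2 + 1) * ‖(fun i j => b (bs i) (bs j) : Fin n → Fin n → ℝ)‖) :=
          mul_le_mul_of_nonneg_left hsum (by positivity)
      _ = rho g x₀ * (c * ‖(fun i j => b (bs i) (bs j) : Fin n → Fin n → ℝ)‖) := by field_simp
      _ ≤ rho g x₀ * F s (fun i j => b (bs i) (bs j)) := mul_le_mul_of_nonneg_left hFb hr.le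
      _ ≤ rho g x₀ * ∫ v in {v : E n | g x v v ≤ 1}, |b v v| := mul_le_mul_of_nonneg_left hle hr.le
      _ ≤ rho g x * ∫ v in {v : E n | g x v v ≤ 1}, |b v v| :=
          mul_le_mul_of_nonneg_right hx₀' (integral_nonneg fun v => abs_nonneg _)

end Pool.Agent.W2helper60.KS
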